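import Pool.Agent.W924.SHM.Union

/-!
# Strongly Haar meager sets do not form an ideal

In the abelian Polish group `ℕ → ℤ` (the product of countably many copies of the discrete group
of integers) there are two Borel strongly Haar meager sets whose union is not strongly Haar
meager.  This answers the question of Darji in the negative.

Idea.  Call a compact set `K` with an element `y` regular if, after finitely many coordinates,
every element of `K` near `y` may be moved inside `K` along every single coordinate `i` through a
window of length `i + 1`.  The first set collects (coded copies of) the elements of compact sets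
`K` which are regular and infinitely often of maximal value; the second one collects the elements
of `K` which cannot be moved along such windows.  Every compact set `K` has a nonmeager part in a
translate of one of the two sets.  The box `∏ [0, n + 1]` witnesses that the second set is strongly
Haar meager.  The first one is witnessed by the set of all `x` with
`0 ≤ x n ≤ n + 1 - #{i < n : x i = 0}`: if a translate of a basic piece of it lay in a regular
part of `K`, being maximal infinitely often would contradict the windows at the coordinates where
`x` is zero.
-/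

namespace Pool.Agent.Results.MP_056111_lc.NotAnIdeal

/-- `A` is strongly Haar meager: there are a Borel set `B ⊇ A` and a nonempty compact set `C`
such that `(B + g) ∩ C` is a meager subset of the space `C`, for every `g`. -/
def StronglyHaarMeager {G : Type} [TopologicalSpace G] [AddCommGroup G] (A : Set G) : Prop :=
  ∃ B : Set G, @MeasurableSet G (borel G) B ∧ A ⊆ B ∧ ∃ C : Set G, IsCompact C ∧ C.Nonempty ∧
    ∀ g : G, IsMeagre {c : C | ∃ b ∈ B, (c : G) = b + g}

/-- Two Borel strongly Haar meager subsets of `ℕ → ℤ` may have a union which is not strongly Haar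
meager; in particular it is not true that countable unions of strongly Haar meager subsets of
abelian Polish groups are strongly Haar meager. -/
theorem result :
    (∃ A₀ A₁ : Set (ℕ → ℤ),
      @MeasurableSet (ℕ → ℤ) (borel (ℕ → ℤ)) A₀ ∧ @MeasurableSet (ℕ → ℤ) (borel (ℕ → ℤ)) A₁ ∧
      StronglyHaarMeager A₀ ∧ StronglyHaarMeager A₁ ∧ ¬ StronglyHaarMeager (A₀ ∪ A₁)) ∧
    ¬ ∀ (G : Type) [AddCommGroup G] [TopologicalSpace G] [IsTopologicalAddGroup G]
        [PolishSpace G] (A : ℕ → Set G),
        (∀ n, StronglyHaarMeager (A n)) → StronglyHaarMeager (⋃ n, A n) := by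
  refine ⟨⟨W924.SHM.A0, W924.SHM.A1, W924.SHM.A0_borel, W924.SHM.A1_borel, W924.SHM.A0_shm,
    W924.SHM.A1_shm, W924.SHM.union_not_shm⟩, fun h => W924.SHM.union_not_shm ?_⟩
  have h1 := h (ℕ → ℤ) (fun n => if n = 0 then W924.SHM.A0 else W924.SHM.A1) (fun n => by
    by_cases hn : n = 0
    · rw [if_pos hn]; exact W924.SHM.A0_shm
    · rw [if_neg hn]; exact W924.SHM.A1_shm)
  have e : (⋃ n : ℕ, (if n = 0 then W924.SHM.A0 else W924.SHM.A1)) =
      W924.SHM.A0 ∪ W924.SHM.A1 := by
    ext w
    simp only [Set.mem_iUnion, Set.mem_union]
    constructor
    · rintro ⟨n, hn⟩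
      by_cases h0 : n = 0
      · rw [if_pos h0] at hn; exact Or.inl hn
      · rw [if_neg h0] at hn; exact Or.inr hn
    · rintro (hw | hw)
      · exact ⟨0, by rw [if_pos rfl]; exact hw⟩
      · exact ⟨1, by rw [if_neg one_ne_zero]; exact hw⟩
  rw [e] at h1
  exact h1

end Pool.Agent.Results.MP_056111_lc.NotAnIdeal
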